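import Pool.Agent.MP_74fd1e_al.Mg.Main

namespace Pool.Agent.Results.MP_74fd1e_al.Classification

open Pool.Agent.MP_74fd1e_al

/-- The permutations `σ` with `θ (σ 0) > ⋯ > θ (σ d)` for the eigenvalue sequence `θ` of some real
Leonard system of diameter `d`. -/
theorem result (d : ℕ) (V : Type) [AddCommGroup V] [Module ℝ V]
    (hV : Module.finrank ℝ V = d + 1) (σ : Equiv.Perm (Fin (d + 1))) :
    (∃ (A A' : Module.End ℝ V) (E E' : Fin (d + 1) → Module.End ℝ V) (θ θ' : Fin (d + 1) → ℝ),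
      IsLeonardSystem A A' E E' θ θ' ∧ StrictAnti fun k => θ (σ k)) ↔
    (∃ N a b : ℕ, N ≤ 16 * d + 8 ∧ a < N ∧ b < N ∧
      StrictMono fun k => distMultiple N (a * σ k + b)) ∨
    (∃ m : ℕ, m ≤ d + 1 ∧ ∃ ε : ℤ, (ε = 1 ∨ ε = -1) ∧
      StrictAnti fun k => ε * (-1) ^ (σ k : ℕ) * |2 * (σ k : ℤ) + 1 - 2 * m|) :=
  main hV σ

end Pool.Agent.Results.MP_74fd1e_al.Classification
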